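import Pool.Agent.N237.DI.Cnt

/-!
# Blocks of direct products and Dade's sums (helper237)
-/

set_option autoImplicit false
set_option linter.unusedSectionVars false

open scoped Classical

noncomputable section

namespace Pool.Agent.N237.DI

open Pool.Agent.Y63.NV
open Pool.Agent.Y63.KR
open Pool.Agent.Y63.AWC (IsIrreducibleCharacter)
open Pool.Agent.R674.Tw (Fixes NG NEbar mem_NEbar IndB invSum)
open Pool.Agent.N20.DI (HasDef kdGe radSum rad_kdGe parts)
open Pool.Agent.Helper884.IC (IsIrrChar)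
open Pool.Agent.Q99.AS (ten ten_irr Dft Dft_ten Dft_unique Dft_congr card_prod irr_one_ne')
open Pool.Agent.Q90.WR (card_transport)

section dl

/-- the indicator function of `1` -/
def dl (F : Type) [Field F] (J : Type) [Group J] : J → F := fun y => if y = 1 then 1 else 0

variable {F : Type} [Field F] {J : Type} [Group J]

theorem dl_class : IsClassFun (dl F J) := by
  intro g x
  unfold dl
  have : g * x * g⁻¹ = 1 ↔ x = 1 := by
    rw [mul_inv_eq_one]
    exact mul_eq_left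
  simp only [this]

theorem dl_one : dl F J 1 = 1 := if_pos rfl

theorem dl_ne {y : J} (h : y ≠ 1) : dl F J y = 0 := if_neg h

theorem block_dl {B : (J → F) → F} (hB : IsBlock B) : B (dl F J) = 1 := by
  have h : dl F J = (Pi.single 1 1 : J → F) := by
    funext y
    unfold dl
    rw [Pi.single_apply]
  rw [h]
  exact hB.one

theorem cv_dl (red : integralClosure ℤ ℂ →+* F) [Finite J] (G S : Subgroup J)
    {χ : ↥(G ⊓ S) → ℂ} (hχ : IsIrrChar χ) :
    centralValue red χ (fun y => dl F G ⟨y, (Subgroup.mem_inf.1 y.2).1⟩) = 1 := by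
  rw [← block_dl (Pool.Agent.Y930.NV.cvh F red _ χ hχ)]
  congr 1
  funext y
  by_cases hy : y = 1
  · subst hy
    have h1 : (⟨((1 : ↥(G ⊓ S)) : J), (Subgroup.mem_inf.1 (1 : ↥(G ⊓ S)).2).1⟩ : G) = 1 := rfl
    rw [h1, dl_one, dl_one]
  · have h1 : (⟨y, (Subgroup.mem_inf.1 y.2).1⟩ : G) ≠ 1 := fun h2 => by
      have h3 : (y : J) = 1 := congrArg (fun z : G => (z : J)) h2
      exact hy (Subtype.ext h3)
    rw [dl_ne h1, dl_ne hy]

end dl

section lin

variable {F : Type} [Field F]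

/-- linear on class functions -/
structure Lin {G : Type} [Group G] (D : (G → F) → F) : Prop where
  add : ∀ f g : G → F, IsClassFun f → IsClassFun g → D (f + g) = D f + D g
  smul : ∀ (a : F) (f : G → F), IsClassFun f → D (a • f) = a * D f

theorem lin_sum {G : Type} [Group G] {D : (G → F) → F} (hD : Lin D) {ι : Type} (a : ι → F)
    (f : ι → G → F) (hf : ∀ i, IsClassFun (f i)) (T : Finset ι) :
    IsClassFun (∑ i ∈ T, a i • f i) ∧ D (∑ i ∈ T, a i • f i) = ∑ i ∈ T, a i * D (f i) := by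
  have hcs : ∀ i, IsClassFun (a i • f i) := fun i g x => by
    rw [Pi.smul_apply, Pi.smul_apply, hf i g x]
  induction T using Finset.induction_on with
  | empty =>
    have h0 : IsClassFun (0 : G → F) := fun _ _ => rfl
    refine ⟨by rw [Finset.sum_empty]; exact h0, ?_⟩
    rw [Finset.sum_empty, Finset.sum_empty]
    have := hD.smul 0 0 h0
    rwa [zero_smul, zero_mul] at this
  | insert k T hk ih =>
    rw [Finset.sum_insert hk, Finset.sum_insert hk]
    refine ⟨fun g x => ?_, ?_⟩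
    · rw [Pi.add_apply, Pi.add_apply, hcs k g x, ih.1 g x]
    · rw [hD.add _ _ (hcs k) ih.1, hD.smul _ _ (hf k), ih.2]

theorem cl_ten {A C : Type} [Group A] [Group C] {f : A → F} (hf : IsClassFun f) {g : C → F}
    (hg : IsClassFun g) : IsClassFun (fun x : A × C => f x.1 * g x.2) := fun a x => by
  change f (a.1 * x.1 * a.1⁻¹) * g (a.2 * x.2 * a.2⁻¹) = f x.1 * g x.2
  rw [hf, hg]

theorem lin_ext {A C : Type} [Group A] [Group C] [Finite A] [Finite C] {D D' : (A × C → F) → F}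
    (hD : Lin D) (hD' : Lin D') (h : ∀ (f : A → F) (g : C → F), IsClassFun f → IsClassFun g →
      D (fun x => f x.1 * g x.2) = D' (fun x => f x.1 * g x.2)) :
    ∀ f, IsClassFun f → D f = D' f := by
  intro f hf
  have _i1 : Fintype (ConjClasses A) := Fintype.ofFinite _
  have _i2 : Fintype (ConjClasses C) := Fintype.ofFinite _
  have hind : ∀ {J : Type} [Group J] (D : ConjClasses J),
      IsClassFun (fun x : J => if ConjClasses.mk x = D then (1 : F) else 0) := by
    intro J _ D g x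
    have h3 : ConjClasses.mk (g * x * g⁻¹) = ConjClasses.mk x :=
      ConjClasses.mk_eq_mk_iff_isConj.2 (isConj_iff.2 ⟨g, rfl⟩).symm
    simp only [h3]
  have h3 : f = ∑ D : ConjClasses A × ConjClasses C, f (D.1.out, D.2.out) •
      (fun x : A × C => (if ConjClasses.mk x.1 = D.1 then (1 : F) else 0) *
        (if ConjClasses.mk x.2 = D.2 then (1 : F) else 0)) := by
    funext x
    rw [Finset.sum_apply, Finset.sum_eq_single (ConjClasses.mk x.1, ConjClasses.mk x.2)]
    · rw [Pi.smul_apply, if_pos rfl, if_pos rfl, smul_eq_mul, mul_one, mul_one]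
      have h4 : IsConj x ((ConjClasses.mk x.1).out, (ConjClasses.mk x.2).out) := by
        rw [Pool.Agent.N20.KB.isConj_prod]
        exact ⟨ConjClasses.mk_eq_mk_iff_isConj.mp (Quotient.out_eq _).symm,
          ConjClasses.mk_eq_mk_iff_isConj.mp (Quotient.out_eq _).symm⟩
      obtain ⟨g, hg⟩ := isConj_iff.1 h4
      rw [← hg, hf]
    · rintro ⟨D1, D2⟩ _ hne
      rw [Pi.smul_apply]
      by_cases h4 : ConjClasses.mk x.1 = D1
      · by_cases h5 : ConjClasses.mk x.2 = D2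
        · exact absurd (Prod.ext h4.symm h5.symm) hne
        · rw [if_neg h5, mul_zero, smul_zero]
      · rw [if_neg h4, zero_mul, smul_zero]
    · intro h
      exact absurd (Finset.mem_univ _) h
  have hcl : ∀ D : ConjClasses A × ConjClasses C,
      IsClassFun (fun x : A × C => (if ConjClasses.mk x.1 = D.1 then (1 : F) else 0) *
        (if ConjClasses.mk x.2 = D.2 then (1 : F) else 0)) := fun D => cl_ten (hind D.1) (hind D.2)
  rw [h3, (lin_sum hD _ _ hcl _).2, (lin_sum hD' _ _ hcl _).2]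
  refine Finset.sum_congr rfl fun D _ => ?_
  congr 1
  exact h _ _ (hind D.1) (hind D.2)

end lin

section prod

variable {F : Type} [Field F] (red : integralClosure ℤ ℂ →+* F)
variable {Γ E₁ E₂ : Type} [Group Γ] [Group E₁] [Group E₂]
  {π : Γ →* E₁ × E₂} {G : Subgroup Γ} {G₁ : Subgroup E₁} {G₂ : Subgroup E₂}

/-- the isomorphism of `G` with `G₁ × G₂` -/
def Iso2.e (hs : Iso2 π G G₁ G₂) : ↥G ≃* ↥G₁ × ↥G₂ :=
  MulEquiv.ofBijective
    ({ toFun := fun x => (⟨(π x.1).1, (hs.mem x.2).1⟩, ⟨(π x.1).2, (hs.mem x.2).2⟩)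
       map_one' := by
        ext
        · simp
        · simp
       map_mul' := fun x y => by
        ext
        · simp
        · simp } : ↥G →* ↥G₁ × ↥G₂) (by
    constructor
    · rw [injective_iff_map_eq_one]
      intro x hx
      have h1 : (π x.1).1 = 1 := congrArg Subtype.val (congrArg Prod.fst hx)
      have h2 : (π x.1).2 = 1 := congrArg Subtype.val (congrArg Prod.snd hx)
      exact Subtype.ext (hs.inj _ x.2 (Prod.ext h1 h2))
    · rintro ⟨⟨a, ha⟩, ⟨b, hb⟩⟩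
      obtain ⟨x, hx, e⟩ := hs.surj ha hb
      refine ⟨⟨x, hx⟩, ?_⟩
      refine Prod.ext (Subtype.ext ?_) (Subtype.ext ?_)
      · change (π x).1 = a
        rw [e]
      · change (π x).2 = b
        rw [e])

variable [Finite Γ] [Finite E₁] [Finite E₂]

theorem cv_prod (hs : Iso2 π G G₁ G₂) {H : Subgroup E₁} {K : Subgroup E₂} {θ : ↥(G₁ ⊓ H) → ℂ}
    {ψ : ↥(G₂ ⊓ K) → ℂ} (hθ : IsIrrChar θ) (hψ : IsIrrChar ψ) {f₁ : G₁ → F} {f₂ : G₂ → F}
    (h1 : IsClassFun f₁) (h2 : IsClassFun f₂) :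
    centralValue red (fun x => ten θ ψ (hs.eqv H K x))
      (fun x : ↥(G ⊓ (H.prod K).comap π) => f₁ ⟨(π x).1, (hs.mem x.2.1).1⟩ *
        f₂ ⟨(π x).2, (hs.mem x.2.1).2⟩) =
      centralValue red θ (fun y => f₁ ⟨y, (Subgroup.mem_inf.1 y.2).1⟩) *
        centralValue red ψ (fun y => f₂ ⟨y, (Subgroup.mem_inf.1 y.2).1⟩) := by
  have _i1 : Fintype ↥(G₁ ⊓ H) := Fintype.ofFinite _
  have _i2 : Fintype ↥(G₂ ⊓ K) := Fintype.ofFinite _
  have c1 : IsClassFun (fun y : ↥(G₁ ⊓ H) => f₁ ⟨y, (Subgroup.mem_inf.1 y.2).1⟩) :=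
    fun g x => h1 ⟨g, (Subgroup.mem_inf.1 g.2).1⟩ ⟨x, (Subgroup.mem_inf.1 x.2).1⟩
  have c2 : IsClassFun (fun y : ↥(G₂ ⊓ K) => f₂ ⟨y, (Subgroup.mem_inf.1 y.2).1⟩) :=
    fun g x => h2 ⟨g, (Subgroup.mem_inf.1 g.2).1⟩ ⟨x, (Subgroup.mem_inf.1 x.2).1⟩
  rw [← Pool.Agent.N20.KB.cv_ten red hθ hψ c1 c2]
  exact Pool.Agent.Y286.NV.centralValue_comp red (hs.eqv H K) (ten θ ψ)
    (Pool.Agent.Y286.NV.irr_class (ten_irr hθ hψ)) _ (cl_ten c1 c2)

theorem blk_prod (hs : Iso2 π G G₁ G₂) {B : (G → F) → F} {B₁ : (G₁ → F) → F} {B₂ : (G₂ → F) → F}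
    (hB : IsBlock B) (hB₁ : IsBlock B₁) (hB₂ : IsBlock B₂) (hT : TenB hs B B₁ B₂)
    {H : Subgroup E₁} {K : Subgroup E₂} {θ : ↥(G₁ ⊓ H) → ℂ} {ψ : ↥(G₂ ⊓ K) → ℂ}
    (hθ : IsIrrChar θ) (hψ : IsIrrChar ψ) :
    Blk red G B ((H.prod K).comap π) (fun x => ten θ ψ (hs.eqv H K x)) ↔
      Blk red G₁ B₁ H θ ∧ Blk red G₂ B₂ K ψ := by
  have _i1 : Fintype ↥(G₁ ⊓ H) := Fintype.ofFinite _
  have _i2 : Fintype ↥(G₂ ⊓ K) := Fintype.ofFinite _
  have hcl : ∀ {f₁ : G₁ → F} {f₂ : G₂ → F}, IsClassFun f₁ → IsClassFun f₂ →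
      IsClassFun (fun x : G => f₁ ⟨(π x).1, (hs.mem x.2).1⟩ * f₂ ⟨(π x).2, (hs.mem x.2).2⟩) := by
    intro f₁ f₂ h1 h2 g x
    have h3 := cl_ten h1 h2 (hs.e g) (hs.e x)
    rw [← map_inv, ← map_mul, ← map_mul] at h3
    exact h3
  have o1 := cv_dl red G₁ H hθ
  have o2 := cv_dl red G₂ K hψ
  constructor
  · intro h
    constructor
    · intro f hf
      have h1 := h _ (hcl hf dl_class)
      have h2 := cv_prod red hs hθ hψ hf (dl_class (F := F) (J := G₂))
      rw [o2, mul_one] at h2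
      rw [← h2]
      refine h1.trans ?_
      rw [hT _ _ hf dl_class, block_dl hB₂, mul_one]
    · intro f hf
      have h1 := h _ (hcl dl_class hf)
      have h2 := cv_prod red hs hθ hψ (dl_class (F := F) (J := G₁)) hf
      rw [o1, one_mul] at h2
      rw [← h2]
      refine h1.trans ?_
      rw [hT _ _ dl_class hf, block_dl hB₁, one_mul]
  · rintro ⟨h1, h2⟩
    have hirr : IsIrrChar (fun x => ten θ ψ (hs.eqv H K x)) :=
      Pool.Agent.Q90.WR.irr_comp (hs.eqv H K) (ten_irr hθ hψ)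
    have hb := Pool.Agent.Y930.NV.cvh F red _ _ hirr
    have hD : Lin (fun f : ↥G₁ × ↥G₂ → F => centralValue red (fun x => ten θ ψ (hs.eqv H K x))
        (fun x : ↥(G ⊓ (H.prod K).comap π) => f (hs.e ⟨x, x.2.1⟩))) := by
      have hc : ∀ f : ↥G₁ × ↥G₂ → F, IsClassFun f →
          IsClassFun (fun x : ↥(G ⊓ (H.prod K).comap π) => f (hs.e ⟨x, x.2.1⟩)) := by
        intro f hf g x
        have h3 := hf (hs.e ⟨g, g.2.1⟩) (hs.e ⟨x, x.2.1⟩)
        rw [← map_inv, ← map_mul, ← map_mul] at h3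
        exact h3
      exact ⟨fun f g hf hg => hb.add _ _ (hc f hf) (hc g hg), fun a f hf => hb.smul a _ (hc f hf)⟩
    have hD' : Lin (fun f : ↥G₁ × ↥G₂ → F => B (fun x => f (hs.e x))) := by
      have hc : ∀ f : ↥G₁ × ↥G₂ → F, IsClassFun f → IsClassFun (fun x : G => f (hs.e x)) := by
        intro f hf g x
        have h3 := hf (hs.e g) (hs.e x)
        rw [← map_inv, ← map_mul, ← map_mul] at h3
        exact h3
      exact ⟨fun f g hf hg => hB.add _ _ (hc f hf) (hc g hg), fun a f hf => hB.smul a _ (hc f hf)⟩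
    intro f hf
    have h3 := lin_ext hD hD' (fun f₁ f₂ c1 c2 => by
      change centralValue red (fun x => ten θ ψ (hs.eqv H K x))
        (fun x : ↥(G ⊓ (H.prod K).comap π) => f₁ ⟨(π x).1, (hs.mem x.2.1).1⟩ *
        f₂ ⟨(π x).2, (hs.mem x.2.1).2⟩) = B (fun x => f₁ ⟨(π x).1, (hs.mem x.2).1⟩ *
          f₂ ⟨(π x).2, (hs.mem x.2).2⟩)
      rw [hT _ _ c1 c2, cv_prod red hs hθ hψ c1 c2, h1 _ c1, h2 _ c2])
      (fun y => f (hs.e.symm y)) (by
        intro g x
        change f (hs.e.symm (g * x * g⁻¹)) = f (hs.e.symm x)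
        rw [map_mul, map_mul, map_inv, hf])
    have e1 : (fun x : G => (fun y => f (hs.e.symm y)) (hs.e x)) = f := by
      funext x
      exact congrArg f (hs.e.symm_apply_apply x)
    have e2 : (fun x : ↥(G ⊓ (H.prod K).comap π) => (fun y => f (hs.e.symm y))
        (hs.e ⟨x, x.2.1⟩)) = fun x : ↥(G ⊓ (H.prod K).comap π) => f ⟨x, x.2.1⟩ := by
      funext x
      exact congrArg f (hs.e.symm_apply_apply _)
    change centralValue red _ (fun x : ↥(G ⊓ (H.prod K).comap π) => (fun y => f (hs.e.symm y))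
        (hs.e ⟨x, x.2.1⟩)) = B (fun x : G => (fun y => f (hs.e.symm y)) (hs.e x)) at h3
    rw [e1, e2] at h3
    exact h3

end prod

end Pool.Agent.N237.DI
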