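import Pool.Agent.Q99.AS.Chain
import Pool.Agent.R674.Tw.Final

/-!
# Alternating sums over the chains of `p`-subgroups of a normal subgroup, for direct products (helper237)

The argument of `Pool.Agent.Q99.AS.Chain`, for the chains of `p`-subgroups of a normal subgroup `G` of
`E` and functions of the stabilisers in `E`.
-/

set_option autoImplicit false

open scoped Classical

noncomputable section

namespace Pool.Agent.N237.DI

open Pool.Agent.Y63.KR
open Pool.Agent.Q99.AS (Ch mem_Ch ec ec_prod exists_transform le_stab le_prod prod_eq_iff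
  isPGroup_prod map_le_normalizer prod_le_normalizer)
open Pool.Agent.R674.Tw (GCh NG invSum card_mul_inv)

section count

variable {E : Type} [Group E] {p : ℕ} [Fintype (Subgroup E)]

/-- the `p`-subgroups of `G` that are normalised by `K` -/
def SN (p : ℕ) (G K : Subgroup E) : Finset (Subgroup E) :=
  Finset.univ.filter fun P => IsPGroup p P ∧ P ≤ G ∧ K ≤ Subgroup.normalizer (P : Set E)

theorem mem_SN {G K P : Subgroup E} :
    P ∈ SN p G K ↔ IsPGroup p P ∧ P ≤ G ∧ K ≤ Subgroup.normalizer (P : Set E) := by simp [SN]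

theorem bot_mem_SN (G K : Subgroup E) : (⊥ : Subgroup E) ∈ SN p G K := by
  refine mem_SN.2 ⟨IsPGroup.of_bot, bot_le, ?_⟩
  rw [Subgroup.normalizer_eq_top]
  exact le_top

/-- the signed sum over all chains -/
def cg (p : ℕ) (G : Subgroup E) (w : Subgroup E → ℤ) : ℤ :=
  ∑ σ ∈ Ch ((SN p G ⊥).erase ⊥), (-1) ^ σ.card * w (chainStabilizer (σ : Set (Subgroup E)))

theorem mem_chains {G : Subgroup E} {σ : Finset (Subgroup E)} :
    σ ∈ Ch ((SN p G ⊥).erase ⊥) ↔
      IsPChain p (σ : Set (Subgroup E)) ∧ ∀ P ∈ (σ : Set (Subgroup E)), P ≤ G := by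
  rw [mem_Ch]
  constructor
  · rintro ⟨h1, h2⟩
    refine ⟨⟨h1, fun P hP => ?_, fun P hP => ?_⟩, fun P hP => ?_⟩
    · exact (mem_SN.1 (Finset.mem_erase.1 (h2 hP)).2).1
    · exact (Finset.mem_erase.1 (h2 hP)).1
    · exact (mem_SN.1 (Finset.mem_erase.1 (h2 hP)).2).2.1
  · rintro ⟨⟨h1, h2, h3⟩, h4⟩
    refine ⟨h1, fun P hP => ?_⟩
    rw [Finset.mem_erase, mem_SN]
    exact ⟨h3 P hP, h2 P hP, h4 P hP, bot_le⟩

theorem sum_eq_cg (G : Subgroup E) (w : Subgroup E → ℤ) [Fintype (GCh p G)] :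
    ∑ σ : GCh p G, (-1) ^ σ.1.ncard * w (chainStabilizer σ.1) = cg p G w := by
  unfold cg
  refine Finset.sum_bij (fun σ _ => σ.1.toFinset) ?_ ?_ ?_ ?_
  · intro σ _
    rw [mem_chains, Set.coe_toFinset]
    exact σ.2
  · intro σ _ τ _ h
    apply Subtype.ext
    rw [← Set.coe_toFinset σ.1, h, Set.coe_toFinset]
  · intro σ hσ
    refine ⟨⟨(σ : Set (Subgroup E)), mem_chains.1 hσ⟩, Finset.mem_univ _, ?_⟩
    simp
  · intro σ _
    rw [Set.coe_toFinset, Set.ncard_eq_toFinset_card']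

theorem filter_chains (G K : Subgroup E) :
    (Ch ((SN p G ⊥).erase ⊥)).filter
      (fun σ : Finset (Subgroup E) => K ≤ chainStabilizer (σ : Set (Subgroup E))) =
      Ch ((SN p G K).erase ⊥) := by
  ext σ
  rw [Finset.mem_filter, mem_Ch, mem_Ch, le_stab]
  constructor
  · rintro ⟨⟨h1, h2⟩, h3⟩
    refine ⟨h1, fun P hP => ?_⟩
    have := h2 hP
    rw [Finset.mem_erase, mem_SN] at this ⊢
    exact ⟨this.1, this.2.1, this.2.2.1, h3 P hP⟩
  · rintro ⟨h1, h2⟩
    refine ⟨⟨h1, fun P hP => ?_⟩, fun P hP => ?_⟩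
    · have := h2 hP
      rw [Finset.mem_erase, mem_SN] at this ⊢
      exact ⟨this.1, this.2.1, this.2.2.1, bot_le⟩
    · have := h2 hP
      rw [Finset.mem_erase, mem_SN] at this
      exact this.2.2.2

theorem sum_stab (G K : Subgroup E) :
    ∑ σ ∈ Ch ((SN p G ⊥).erase ⊥),
      (if K ≤ chainStabilizer (σ : Set (Subgroup E)) then (-1) ^ σ.card else 0 : ℤ) =
      ec ((SN p G K).erase ⊥) := by
  rw [← Finset.sum_filter, filter_chains]
  rfl

end count

/-- `π` maps the subgroup `G` of `Γ` isomorphically onto `G₁ × G₂`. -/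
structure Iso2 {Γ E₁ E₂ : Type} [Group Γ] [Group E₁] [Group E₂] (π : Γ →* E₁ × E₂)
    (G : Subgroup Γ) (G₁ : Subgroup E₁) (G₂ : Subgroup E₂) : Prop where
  map : G.map π = G₁.prod G₂
  inj : ∀ x ∈ G, π x = 1 → x = 1

section prod

variable {Γ E₁ E₂ : Type} [Group Γ] [Group E₁] [Group E₂]

/-- the first component -/
abbrev π₁ (π : Γ →* E₁ × E₂) : Γ →* E₁ := (MonoidHom.fst E₁ E₂).comp π

/-- the second component -/
abbrev π₂ (π : Γ →* E₁ × E₂) : Γ →* E₂ := (MonoidHom.snd E₁ E₂).comp π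

variable {π : Γ →* E₁ × E₂} {G : Subgroup Γ} {G₁ : Subgroup E₁} {G₂ : Subgroup E₂}

theorem Iso2.mem (hs : Iso2 π G G₁ G₂) {x : Γ} (hx : x ∈ G) : (π x).1 ∈ G₁ ∧ (π x).2 ∈ G₂ := by
  have h : π x ∈ G.map π := ⟨x, hx, rfl⟩
  rw [hs.map] at h
  exact h

theorem Iso2.surj (hs : Iso2 π G G₁ G₂) {a : E₁} {b : E₂} (ha : a ∈ G₁) (hb : b ∈ G₂) :
    ∃ x ∈ G, π x = (a, b) := by
  have h : (a, b) ∈ G.map π := by
    rw [hs.map]
    exact ⟨ha, hb⟩
  exact h

theorem le_comap {K : Subgroup Γ} {A : Subgroup E₁} {B : Subgroup E₂} :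
    K ≤ (A.prod B).comap π ↔ K.map (π₁ π) ≤ A ∧ K.map (π₂ π) ≤ B := by
  rw [← Subgroup.map_le_iff_le_comap, le_prod, Subgroup.map_map, Subgroup.map_map]

/-- the isomorphism -/
def Iso2.eqv (hs : Iso2 π G G₁ G₂) (H : Subgroup E₁) (K : Subgroup E₂) :
    ↥(G ⊓ (H.prod K).comap π) ≃* ↥(G₁ ⊓ H) × ↥(G₂ ⊓ K) :=
  MulEquiv.ofBijective
    ({ toFun := fun x => (⟨(π x.1).1, ⟨(hs.mem x.2.1).1, x.2.2.1⟩⟩,
        ⟨(π x.1).2, ⟨(hs.mem x.2.1).2, x.2.2.2⟩⟩)
       map_one' := by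
        ext
        · simp
        · simp
       map_mul' := fun x y => by
        ext
        · simp
        · simp } : ↥(G ⊓ (H.prod K).comap π) →* ↥(G₁ ⊓ H) × ↥(G₂ ⊓ K)) (by
    constructor
    · rw [injective_iff_map_eq_one]
      intro x hx
      have h1 : (π x.1).1 = 1 := congrArg Subtype.val (congrArg Prod.fst hx)
      have h2 : (π x.1).2 = 1 := congrArg Subtype.val (congrArg Prod.snd hx)
      exact Subtype.ext (hs.inj _ x.2.1 (Prod.ext h1 h2))
    · rintro ⟨⟨a, ha⟩, ⟨b, hb⟩⟩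
      obtain ⟨x, hx, e⟩ := hs.surj ha.1 hb.1
      refine ⟨⟨x, hx, ?_⟩, ?_⟩
      · change π x ∈ H.prod K
        rw [e]
        exact ⟨ha.2, hb.2⟩
      · refine Prod.ext (Subtype.ext ?_) (Subtype.ext ?_)
        · change (π x).1 = a
          rw [e]
        · change (π x).2 = b
          rw [e])

theorem Iso2.eqv_fst (hs : Iso2 π G G₁ G₂) (H : Subgroup E₁) (K : Subgroup E₂)
    (x : ↥(G ⊓ (H.prod K).comap π)) : ((hs.eqv H K x).1 : E₁) = (π x).1 := rfl

theorem Iso2.eqv_snd (hs : Iso2 π G G₁ G₂) (H : Subgroup E₁) (K : Subgroup E₂)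
    (x : ↥(G ⊓ (H.prod K).comap π)) : ((hs.eqv H K x).2 : E₂) = (π x).2 := rfl

theorem Iso2.card (hs : Iso2 π G G₁ G₂) (H : Subgroup E₁) (K : Subgroup E₂) :
    Nat.card ↥(G ⊓ (H.prod K).comap π) = Nat.card ↥(G₁ ⊓ H) * Nat.card ↥(G₂ ⊓ K) := by
  rw [Nat.card_congr (hs.eqv H K).toEquiv, Nat.card_prod]

theorem Iso2.card_G (hs : Iso2 π G G₁ G₂) : Nat.card G = Nat.card G₁ * Nat.card G₂ := by
  have h := hs.card ⊤ ⊤
  have h1 : ((⊤ : Subgroup E₁).prod (⊤ : Subgroup E₂)).comap π = ⊤ := by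
    rw [Subgroup.top_prod_top, Subgroup.comap_top]
  rw [h1, inf_top_eq, inf_top_eq, inf_top_eq] at h
  exact h

theorem ec_SN {p : ℕ} [Fact p.Prime] [Fintype (Subgroup E₁)] [Fintype (Subgroup E₂)]
    [Fintype (Subgroup Γ)] [Finite E₁] [Finite E₂] [hn : G.Normal] (hs : Iso2 π G G₁ G₂)
    (K : Subgroup Γ) :
    ec ((SN p G K).erase ⊥) =
      ec ((SN p G₁ (K.map (π₁ π))).erase ⊥) * ec ((SN p G₂ (K.map (π₂ π))).erase ⊥) := by
  refine ec_prod (bot_mem_SN _ _) (bot_mem_SN _ _) (bot_mem_SN _ _) (fun x _ => bot_le)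
    (fun x _ => bot_le) (fun x _ => bot_le)
    (fun P => P.map (π₁ π)) (fun P => P.map (π₂ π))
    (fun P Q => (P.prod Q).comap π ⊓ G) ?_ ?_ ?_ (fun x hx y _ z _ => ?_) (fun y hy z hz => ?_)
  · intro P hP
    obtain ⟨a, b, c⟩ := mem_SN.1 hP
    refine mem_SN.2 ⟨a.map _, ?_, map_le_normalizer _ c⟩
    rintro _ ⟨x, hx, rfl⟩
    exact (hs.mem (b hx)).1
  · intro P hP
    obtain ⟨a, b, c⟩ := mem_SN.1 hP
    refine mem_SN.2 ⟨a.map _, ?_, map_le_normalizer _ c⟩
    rintro _ ⟨x, hx, rfl⟩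
    exact (hs.mem (b hx)).2
  · intro P hP Q hQ
    obtain ⟨a, b, c⟩ := mem_SN.1 hP
    obtain ⟨a', b', c'⟩ := mem_SN.1 hQ
    refine mem_SN.2 ⟨?_, inf_le_right, ?_⟩
    · let g : ↥((P.prod Q).comap π ⊓ G) →* ↥(P.prod Q) :=
        { toFun := fun x => ⟨π x.1, x.2.1⟩
          map_one' := Subtype.ext (map_one π)
          map_mul' := fun x y => Subtype.ext (map_mul π _ _) }
      refine (isPGroup_prod a a').of_injective g ?_
      rw [injective_iff_map_eq_one]
      intro x hx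
      exact Subtype.ext (hs.inj _ x.2.2 (congrArg Subtype.val hx))
    · intro k hk
      have h1 : K.map π ≤ Subgroup.normalizer ((P.prod Q : Subgroup (E₁ × E₂)) : Set (E₁ × E₂)) := by
        refine prod_le_normalizer ?_ ?_
        · rw [Subgroup.map_map]
          exact c
        · rw [Subgroup.map_map]
          exact c'
      have h2 := Pool.Agent.Q99.AS.mem_normalizer'.1 (h1 ⟨k, hk, rfl⟩)
      rw [Pool.Agent.Q99.AS.mem_normalizer']
      intro x
      rw [Subgroup.mem_inf, Subgroup.mem_inf]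
      refine and_congr ?_ ⟨fun h => hn.conj_mem x h k, fun h => ?_⟩
      · rw [Subgroup.mem_comap, Subgroup.mem_comap, map_mul, map_mul, map_inv]
        exact h2 (π x)
      · have h3 := hn.conj_mem _ h k⁻¹
        have h4 : k⁻¹ * (k * x * k⁻¹) * k⁻¹⁻¹ = x := by group
        rwa [h4] at h3
  · change x ≤ (y.prod z).comap π ⊓ G ↔ _
    rw [le_inf_iff, le_comap]
    exact ⟨fun h => h.1, fun h => ⟨h, (mem_SN.1 hx).2.1⟩⟩
  · obtain ⟨-, b, -⟩ := mem_SN.1 hy
    obtain ⟨-, b', -⟩ := mem_SN.1 hz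
    change (y.prod z).comap π ⊓ G = ⊥ ↔ _
    constructor
    · intro h
      refine ⟨(Subgroup.eq_bot_iff_forall _).2 fun a ha => ?_,
        (Subgroup.eq_bot_iff_forall _).2 fun a ha => ?_⟩
      · obtain ⟨x, hx, e⟩ := hs.surj (b ha) (one_mem G₂)
        have h1 : x ∈ (y.prod z).comap π ⊓ G := ⟨by
          change π x ∈ y.prod z
          rw [e]
          exact ⟨ha, one_mem _⟩, hx⟩
        rw [h, Subgroup.mem_bot] at h1
        rw [h1, map_one] at e
        exact (congrArg Prod.fst e).symm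
      · obtain ⟨x, hx, e⟩ := hs.surj (one_mem G₁) (b' ha)
        have h1 : x ∈ (y.prod z).comap π ⊓ G := ⟨by
          change π x ∈ y.prod z
          rw [e]
          exact ⟨one_mem _, ha⟩, hx⟩
        rw [h, Subgroup.mem_bot] at h1
        rw [h1, map_one] at e
        exact (congrArg Prod.snd e).symm
    · rintro ⟨rfl, rfl⟩
      refine (Subgroup.eq_bot_iff_forall _).2 fun x hx => hs.inj x hx.2 ?_
      exact Prod.ext (Subgroup.mem_bot.1 hx.1.1) (Subgroup.mem_bot.1 hx.1.2)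

variable [Fintype (Subgroup E₁)] [Fintype (Subgroup E₂)]
  [Fintype (Subgroup Γ)] [Finite E₁] [Finite E₂]

/-- **Signed sums over the chains of a direct product.** -/
theorem cg_prod {p : ℕ} [Fact p.Prime] [G.Normal] (hs : Iso2 π G G₁ G₂)
    (w : Subgroup Γ → ℤ) :
    cg p G w = ∑ σ ∈ Ch ((SN p G₁ ⊥).erase ⊥), ∑ τ ∈ Ch ((SN p G₂ ⊥).erase ⊥),
      (-1) ^ σ.card * ((-1) ^ τ.card * w (((chainStabilizer (σ : Set (Subgroup E₁))).prod
        (chainStabilizer (τ : Set (Subgroup E₂)))).comap π)) := by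
  obtain ⟨m, hm⟩ := exists_transform w
  have hL : cg p G w = ∑ K : Subgroup Γ, m K *
      (ec ((SN p G₁ (K.map (π₁ π))).erase ⊥) * ec ((SN p G₂ (K.map (π₂ π))).erase ⊥)) := by
    unfold cg
    have h1 : ∀ σ : Finset (Subgroup Γ),
        (-1 : ℤ) ^ σ.card * w (chainStabilizer (σ : Set (Subgroup Γ))) =
          ∑ K : Subgroup Γ, m K * (if K ≤ chainStabilizer
            (σ : Set (Subgroup Γ)) then (-1) ^ σ.card else 0) := by
      intro σ
      rw [hm, Finset.sum_filter, Finset.mul_sum]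
      refine Finset.sum_congr rfl fun K _ => ?_
      split_ifs <;> ring
    rw [Finset.sum_congr rfl fun σ _ => h1 σ, Finset.sum_comm]
    refine Finset.sum_congr rfl fun K _ => ?_
    rw [← Finset.mul_sum, sum_stab, ec_SN hs]
  have hR : ∀ (σ : Finset (Subgroup E₁)) (τ : Finset (Subgroup E₂)),
      (-1 : ℤ) ^ σ.card * ((-1) ^ τ.card * w (((chainStabilizer (σ : Set (Subgroup E₁))).prod
        (chainStabilizer (τ : Set (Subgroup E₂)))).comap π)) =
      ∑ K : Subgroup Γ, m K *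
        ((if K.map (π₁ π) ≤ chainStabilizer (σ : Set (Subgroup E₁)) then
          (-1) ^ σ.card else 0) *
        (if K.map (π₂ π) ≤ chainStabilizer (τ : Set (Subgroup E₂)) then
          (-1) ^ τ.card else 0)) := by
    intro σ τ
    rw [hm, Finset.sum_filter, Finset.mul_sum, Finset.mul_sum]
    refine Finset.sum_congr rfl fun K _ => ?_
    by_cases a : K.map (π₁ π) ≤ chainStabilizer (σ : Set (Subgroup E₁)) <;>
    by_cases b : K.map (π₂ π) ≤ chainStabilizer (τ : Set (Subgroup E₂))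
    · rw [if_pos (le_comap.2 ⟨a, b⟩), if_pos a, if_pos b]; ring
    · rw [if_neg (fun h => b (le_comap.1 h).2), if_neg b]; ring
    · rw [if_neg (fun h => a (le_comap.1 h).1), if_neg a]; ring
    · rw [if_neg (fun h => a (le_comap.1 h).1), if_neg a]; ring
  rw [hL]
  simp_rw [hR]
  have h2 : ∀ σ : Finset (Subgroup E₁), ∑ τ ∈ Ch ((SN p G₂ ⊥).erase ⊥),
      ∑ K : Subgroup Γ, m K *
        ((if K.map (π₁ π) ≤ chainStabilizer (σ : Set (Subgroup E₁)) then
          (-1 : ℤ) ^ σ.card else 0) *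
        (if K.map (π₂ π) ≤ chainStabilizer (τ : Set (Subgroup E₂)) then
          (-1) ^ τ.card else 0)) = ∑ K : Subgroup Γ, m K *
        ((if K.map (π₁ π) ≤ chainStabilizer (σ : Set (Subgroup E₁)) then
          (-1 : ℤ) ^ σ.card else 0) * ec ((SN p G₂ (K.map (π₂ π))).erase ⊥)) := by
    intro σ
    rw [Finset.sum_comm]
    refine Finset.sum_congr rfl fun K _ => ?_
    rw [← Finset.mul_sum, ← Finset.mul_sum, sum_stab]
  simp_rw [h2]
  rw [Finset.sum_comm]
  refine Finset.sum_congr rfl fun K _ => ?_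
  rw [← Finset.mul_sum, ← Finset.sum_mul, sum_stab]

end prod

/-- **The alternating sums of a direct product.** -/
theorem invSum_prod {Γ E₁ E₂ : Type} [Group Γ] [Group E₁] [Group E₂] [Finite Γ] [Finite E₁]
    [Finite E₂] {p : ℕ} [Fact p.Prime] {π : Γ →* E₁ × E₂} {G : Subgroup Γ} [G.Normal]
    {G₁ : Subgroup E₁} {G₂ : Subgroup E₂} (hs : Iso2 π G G₁ G₂) {ι : Type} (I : Finset ι)
    (f : Subgroup Γ → ℤ) (a : ι → Subgroup E₁ → ℤ) (b : ι → Subgroup E₂ → ℤ)
    (hf : ∀ g ∈ G, ∀ σ : Set (Subgroup Γ),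
      f (chainStabilizer (conjSub g '' σ)) = f (chainStabilizer σ))
    (ha : ∀ i, ∀ g ∈ G₁, ∀ σ : Set (Subgroup E₁),
      a i (chainStabilizer (conjSub g '' σ)) = a i (chainStabilizer σ))
    (hb : ∀ i, ∀ g ∈ G₂, ∀ σ : Set (Subgroup E₂),
      b i (chainStabilizer (conjSub g '' σ)) = b i (chainStabilizer σ))
    (h : ∀ (H : Subgroup E₁) (K : Subgroup E₂), f ((H.prod K).comap π) = ∑ i ∈ I, a i H * b i K) :
    invSum p G (fun σ => f (chainStabilizer σ)) =
      ∑ i ∈ I, invSum p G₁ (fun σ => a i (chainStabilizer σ)) *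
        invSum p G₂ (fun σ => b i (chainStabilizer σ)) := by
  let _ : Fintype (Subgroup E₁) := Fintype.ofFinite _
  let _ : Fintype (Subgroup E₂) := Fintype.ofFinite _
  let _ : Fintype (Subgroup Γ) := Fintype.ofFinite _
  let _ : Fintype (GCh p G₁) := Fintype.ofFinite _
  let _ : Fintype (GCh p G₂) := Fintype.ofFinite _
  let _ : Fintype (GCh p G) := Fintype.ofFinite _
  have e := card_mul_inv (p := p) G (fun σ => f (chainStabilizer σ))
    (fun g hg σ => hf g hg σ)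
  have e0 := sum_eq_cg (p := p) G (fun H => (Nat.card ↥(G ⊓ H) : ℤ) * f H)
  rw [cg_prod hs] at e0
  have e' : (Nat.card ↥G : ℤ) * invSum p G (fun σ => f (chainStabilizer σ)) =
      _ := e.trans e0
  have e1 : ∀ i, (Nat.card G₁ : ℤ) * invSum p G₁ (fun σ => a i (chainStabilizer σ)) =
      cg p G₁ (fun H => (Nat.card ↥(G₁ ⊓ H) : ℤ) * a i H) := fun i =>
    (card_mul_inv (p := p) G₁ (fun σ => a i (chainStabilizer σ))
      (fun g hg σ => ha i g hg σ)).trans
      (sum_eq_cg (p := p) G₁ (fun H => (Nat.card ↥(G₁ ⊓ H) : ℤ) * a i H))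
  have e2 : ∀ i, (Nat.card G₂ : ℤ) * invSum p G₂ (fun σ => b i (chainStabilizer σ)) =
      cg p G₂ (fun H => (Nat.card ↥(G₂ ⊓ H) : ℤ) * b i H) := fun i =>
    (card_mul_inv (p := p) G₂ (fun σ => b i (chainStabilizer σ))
      (fun g hg σ => hb i g hg σ)).trans
      (sum_eq_cg (p := p) G₂ (fun H => (Nat.card ↥(G₂ ⊓ H) : ℤ) * b i H))
  have hpr : (Nat.card ↥G : ℤ) = (Nat.card G₁ : ℤ) * Nat.card G₂ := by
    rw [hs.card_G]
    push_cast
    rfl
  have e3 : (Nat.card ↥G : ℤ) * invSum p G (fun σ => f (chainStabilizer σ)) =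
      (Nat.card ↥G : ℤ) * ∑ i ∈ I, invSum p G₁ (fun σ => a i (chainStabilizer σ)) *
        invSum p G₂ (fun σ => b i (chainStabilizer σ)) := by
    rw [e']
    have e4 : (Nat.card ↥G : ℤ) * ∑ i ∈ I,
        invSum p G₁ (fun σ => a i (chainStabilizer σ)) *
        invSum p G₂ (fun σ => b i (chainStabilizer σ)) =
        ∑ i ∈ I, ((Nat.card G₁ : ℤ) * invSum p G₁ (fun σ => a i (chainStabilizer σ))) *
          ((Nat.card G₂ : ℤ) * invSum p G₂ (fun σ => b i (chainStabilizer σ))) := by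
      rw [hpr, Finset.mul_sum]
      exact Finset.sum_congr rfl fun i _ => by ring
    rw [e4]
    simp_rw [e1, e2, cg, Finset.sum_mul_sum]
    have e5 : ∀ (H : Subgroup E₁) (K : Subgroup E₂),
        (Nat.card ↥(G ⊓ (H.prod K).comap π) : ℤ) * f ((H.prod K).comap π) =
          ∑ i ∈ I, ((Nat.card ↥(G₁ ⊓ H) : ℤ) * a i H) * ((Nat.card ↥(G₂ ⊓ K) : ℤ) * b i K) := by
      intro H K
      rw [h, hs.card, Finset.mul_sum]
      push_cast
      exact Finset.sum_congr rfl fun i _ => by ring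
    simp_rw [e5, Finset.mul_sum]
    have e6 : ∀ σ : Finset (Subgroup E₁), ∑ τ ∈ Ch ((SN p G₂ ⊥).erase ⊥), ∑ i ∈ I,
        (-1 : ℤ) ^ σ.card * ((-1) ^ τ.card *
          (((Nat.card ↥(G₁ ⊓ chainStabilizer (σ : Set (Subgroup E₁))) : ℤ) *
            a i (chainStabilizer (σ : Set (Subgroup E₁)))) *
          ((Nat.card ↥(G₂ ⊓ chainStabilizer (τ : Set (Subgroup E₂))) : ℤ) *
            b i (chainStabilizer (τ : Set (Subgroup E₂)))))) =
        ∑ i ∈ I, ∑ τ ∈ Ch ((SN p G₂ ⊥).erase ⊥),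
        (-1 : ℤ) ^ σ.card * ((-1) ^ τ.card *
          (((Nat.card ↥(G₁ ⊓ chainStabilizer (σ : Set (Subgroup E₁))) : ℤ) *
            a i (chainStabilizer (σ : Set (Subgroup E₁)))) *
          ((Nat.card ↥(G₂ ⊓ chainStabilizer (τ : Set (Subgroup E₂))) : ℤ) *
            b i (chainStabilizer (τ : Set (Subgroup E₂)))))) := fun σ => Finset.sum_comm
    simp_rw [e6]
    rw [Finset.sum_comm]
    refine Finset.sum_congr rfl fun i _ => Finset.sum_congr rfl fun σ _ =>
      Finset.sum_congr rfl fun τ _ => by ring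
  have hpos : (Nat.card ↥G : ℤ) ≠ 0 := by
    have : 0 < Nat.card ↥G := Nat.card_pos
    exact_mod_cast this.ne'
  exact mul_left_cancel₀ hpos e3

end Pool.Agent.N237.DI
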