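import Pool.Agent.N237.DI.Chn
import Pool.Agent.N20.DI.Fin
import Pool.Agent.N20.KB.Mult
import Pool.Agent.Q99.AS.Dade

/-!
# Characters of the stabilisers of chains: direct products (helper237)
-/

set_option autoImplicit false

open scoped Classical

noncomputable section

namespace Pool.Agent.N237.DI

open Pool.Agent.Y63.NV
open Pool.Agent.Y63.KR
open Pool.Agent.Y63.AWC (IsIrreducibleCharacter)
open Pool.Agent.R674.Tw (Fixes NG NEbar mem_NEbar IndB invSum)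
open Pool.Agent.N20.DI (HasDef kdGe radSum rad_kdGe parts)
open Pool.Agent.Helper884.IC (IsIrrChar)
open Pool.Agent.Q99.AS (ten ten_irr Dft Dft_ten Dft_unique Dft_congr card_prod irr_one_ne')
open Pool.Agent.Q90.WR (card_transport)

section

variable {F : Type} [Field F] {E : Type} [Group E]

/-- every element of `U` is the image of an element of `S` that fixes `χ` -/
def Inr (G : Subgroup E) [G.Normal] (U : Subgroup (E ⧸ G)) (S : Subgroup E)
    (χ : ↥(G ⊓ S) → ℂ) : Prop := ∀ u ∈ U, ∃ e ∈ S, (e : E ⧸ G) = u ∧ Fixes e χ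

/-- the block of `χ` induces `B` -/
def Blk (red : integralClosure ℤ ℂ →+* F) (G : Subgroup E) (B : (G → F) → F) (S : Subgroup E)
    (χ : ↥(G ⊓ S) → ℂ) : Prop :=
  ∀ f : G → F, IsClassFun f →
    centralValue red χ (fun x => f ⟨x, (Subgroup.mem_inf.1 x.2).1⟩) = B f

/-- the number of the characters of `G ∩ S` of defect `d` over `B` with inertial group `≥ U` -/
def kS (p : ℕ) (red : integralClosure ℤ ℂ →+* F) (G : Subgroup E) [G.Normal] (B : (G → F) → F)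
    (d : ℕ) (U : Subgroup (E ⧸ G)) (S : Subgroup E) : ℤ :=
  (Nat.card {χ : ↥(G ⊓ S) → ℂ // IsIrrChar χ ∧ (Dft p d χ ∧ Inr G U S χ ∧ Blk red G B S χ)} : ℤ)

theorem kdGe_kS [Finite E] (p : ℕ) (red : integralClosure ℤ ℂ →+* F) (G : Subgroup E) [G.Normal]
    (B : (G → F) → F) (d : ℕ) (U : Subgroup (E ⧸ G)) (σ : Set (Subgroup E)) :
    (kdGe p red G B d U σ : ℤ) = kS p red G B d U (chainStabilizer σ) := by
  unfold kdGe kS
  congr 1
  refine Nat.card_congr (Equiv.subtypeEquivRight fun χ => ?_)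
  have h1 : U ≤ NEbar G σ χ ↔ Inr G U (chainStabilizer σ) χ := by
    constructor
    · intro h u hu
      exact (mem_NEbar G u σ χ).1 (h hu)
    · intro h u hu
      exact (mem_NEbar G u σ χ).2 (h u hu)
  constructor
  · rintro ⟨a, b, c, e⟩
    exact ⟨a, b, h1.1 c, e⟩
  · rintro ⟨a, b, c, e⟩
    exact ⟨a, b, h1.2 c, e⟩

end

section prod

variable {F : Type} [Field F] (red : integralClosure ℤ ℂ →+* F)
variable {Γ E₁ E₂ : Type} [Group Γ] [Group E₁] [Group E₂]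
  {π : Γ →* E₁ × E₂} {G : Subgroup Γ} {G₁ : Subgroup E₁} {G₂ : Subgroup E₂}

/-- the images of `U` in `E₁/G₁` and `E₂/G₂` are `U₁` and `U₂` -/
structure Proj (π : Γ →* E₁ × E₂) (G : Subgroup Γ) (G₁ : Subgroup E₁) (G₂ : Subgroup E₂)
    [G.Normal] [G₁.Normal] [G₂.Normal] (U : Subgroup (Γ ⧸ G)) (U₁ : Subgroup (E₁ ⧸ G₁))
    (U₂ : Subgroup (E₂ ⧸ G₂)) : Prop where
  fst : ∀ y : E₁ ⧸ G₁, y ∈ U₁ ↔ ∃ x : Γ, (x : Γ ⧸ G) ∈ U ∧ ((π x).1 : E₁ ⧸ G₁) = y
  snd : ∀ y : E₂ ⧸ G₂, y ∈ U₂ ↔ ∃ x : Γ, (x : Γ ⧸ G) ∈ U ∧ ((π x).2 : E₂ ⧸ G₂) = y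

/-- `B = B₁ ⊗ B₂` -/
def TenB (hs : Iso2 π G G₁ G₂) (B : (G → F) → F) (B₁ : (G₁ → F) → F) (B₂ : (G₂ → F) → F) : Prop :=
  ∀ (f₁ : G₁ → F) (f₂ : G₂ → F), IsClassFun f₁ → IsClassFun f₂ →
    B (fun x => f₁ ⟨(π x).1, (hs.mem x.2).1⟩ * f₂ ⟨(π x).2, (hs.mem x.2).2⟩) = B₁ f₁ * B₂ f₂

variable [Finite Γ] [Finite E₁] [Finite E₂]

theorem inr_prod [G.Normal] [G₁.Normal] [G₂.Normal] (hs : Iso2 π G G₁ G₂)
    {U : Subgroup (Γ ⧸ G)} {U₁ : Subgroup (E₁ ⧸ G₁)} {U₂ : Subgroup (E₂ ⧸ G₂)}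
    (hU : Proj π G G₁ G₂ U U₁ U₂) {H : Subgroup E₁} {K : Subgroup E₂} {θ : ↥(G₁ ⊓ H) → ℂ}
    {ψ : ↥(G₂ ⊓ K) → ℂ} (hθ : IsIrrChar θ) (hψ : IsIrrChar ψ) :
    Inr G U ((H.prod K).comap π) (fun x => ten θ ψ (hs.eqv H K x)) ↔
      Inr G₁ U₁ H θ ∧ Inr G₂ U₂ K ψ := by
  have hθ1 := irr_one_ne' hθ
  have hψ1 := irr_one_ne' hψ
  constructor
  · intro h
    constructor
    · intro u hu
      obtain ⟨x, hx, hxu⟩ := (hU.fst u).1 hu
      obtain ⟨e, he, he1, he2⟩ := h _ hx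
      refine ⟨(π e).1, he.1, ?_, ?_⟩
      · rw [← hxu]
        have h1 : e⁻¹ * x ∈ G := QuotientGroup.eq.1 he1
        refine QuotientGroup.eq.2 ?_
        have h2 := (hs.mem h1).1
        rwa [map_mul, map_inv] at h2
      · intro n n' hn
        obtain ⟨y, hy, ey⟩ := hs.surj (a := (n : E₁)) n.2.1 (one_mem G₂)
        obtain ⟨y', hy', ey'⟩ : ∃ y' ∈ G, y' = e * y * e⁻¹ :=
          ⟨_, (inferInstance : G.Normal).conj_mem y hy e, rfl⟩
        have ey2 : π y' = ((n' : E₁), (1 : E₂)) := by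
          rw [ey', map_mul, map_mul, map_inv, ey, hn]
          refine Prod.ext rfl ?_
          change (π e).2 * 1 * (π e).2⁻¹ = 1
          group
        have m1 : y ∈ G ⊓ (H.prod K).comap π := ⟨hy, by
          change π y ∈ H.prod K
          rw [ey]
          exact ⟨n.2.2, one_mem _⟩⟩
        have m2 : y' ∈ G ⊓ (H.prod K).comap π := ⟨hy', by
          change π y' ∈ H.prod K
          rw [ey2]
          exact ⟨n'.2.2, one_mem _⟩⟩
        have h3 := he2 ⟨y, m1⟩ ⟨y', m2⟩ ey'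
        have e1 : hs.eqv H K ⟨y, m1⟩ = (n, 1) := Prod.ext (Subtype.ext (by
          rw [hs.eqv_fst, ey])) (Subtype.ext (by rw [hs.eqv_snd, ey]; rfl))
        have e2 : hs.eqv H K ⟨y', m2⟩ = (n', 1) := Prod.ext (Subtype.ext (by
          rw [hs.eqv_fst, ey2])) (Subtype.ext (by rw [hs.eqv_snd, ey2]; rfl))
        change ten θ ψ (hs.eqv H K ⟨y', m2⟩) = ten θ ψ (hs.eqv H K ⟨y, m1⟩) at h3
        rw [e1, e2] at h3
        exact mul_right_cancel₀ hψ1 h3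
    · intro u hu
      obtain ⟨x, hx, hxu⟩ := (hU.snd u).1 hu
      obtain ⟨e, he, he1, he2⟩ := h _ hx
      refine ⟨(π e).2, he.2, ?_, ?_⟩
      · rw [← hxu]
        have h1 : e⁻¹ * x ∈ G := QuotientGroup.eq.1 he1
        refine QuotientGroup.eq.2 ?_
        have h2 := (hs.mem h1).2
        rwa [map_mul, map_inv] at h2
      · intro n n' hn
        obtain ⟨y, hy, ey⟩ := hs.surj (b := (n : E₂)) (one_mem G₁) n.2.1
        obtain ⟨y', hy', ey'⟩ : ∃ y' ∈ G, y' = e * y * e⁻¹ :=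
          ⟨_, (inferInstance : G.Normal).conj_mem y hy e, rfl⟩
        have ey2 : π y' = ((1 : E₁), (n' : E₂)) := by
          rw [ey', map_mul, map_mul, map_inv, ey, hn]
          refine Prod.ext ?_ rfl
          change (π e).1 * 1 * (π e).1⁻¹ = 1
          group
        have m1 : y ∈ G ⊓ (H.prod K).comap π := ⟨hy, by
          change π y ∈ H.prod K
          rw [ey]
          exact ⟨one_mem _, n.2.2⟩⟩
        have m2 : y' ∈ G ⊓ (H.prod K).comap π := ⟨hy', by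
          change π y' ∈ H.prod K
          rw [ey2]
          exact ⟨one_mem _, n'.2.2⟩⟩
        have h3 := he2 ⟨y, m1⟩ ⟨y', m2⟩ ey'
        have e1 : hs.eqv H K ⟨y, m1⟩ = (1, n) := Prod.ext (Subtype.ext (by
          rw [hs.eqv_fst, ey]; rfl)) (Subtype.ext (by rw [hs.eqv_snd, ey]))
        have e2 : hs.eqv H K ⟨y', m2⟩ = (1, n') := Prod.ext (Subtype.ext (by
          rw [hs.eqv_fst, ey2]; rfl)) (Subtype.ext (by rw [hs.eqv_snd, ey2]))
        change ten θ ψ (hs.eqv H K ⟨y', m2⟩) = ten θ ψ (hs.eqv H K ⟨y, m1⟩) at h3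
        rw [e1, e2] at h3
        exact mul_left_cancel₀ hθ1 h3
  · rintro ⟨h1, h2⟩ u hu
    obtain ⟨x, rfl⟩ := QuotientGroup.mk_surjective u
    obtain ⟨a, ha, ea, fa⟩ := h1 _ ((hU.fst _).2 ⟨x, hu, rfl⟩)
    obtain ⟨b, hb, eb, fb⟩ := h2 _ ((hU.snd _).2 ⟨x, hu, rfl⟩)
    have ga : (π x).1⁻¹ * a ∈ G₁ := QuotientGroup.eq.1 ea.symm
    have gb : (π x).2⁻¹ * b ∈ G₂ := QuotientGroup.eq.1 eb.symm
    obtain ⟨g, hg, eg⟩ := hs.surj ga gb
    have e1 : π (x * g) = (a, b) := by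
      rw [map_mul, eg]
      refine Prod.ext ?_ ?_
      · change (π x).1 * ((π x).1⁻¹ * a) = a
        group
      · change (π x).2 * ((π x).2⁻¹ * b) = b
        group
    refine ⟨x * g, ?_, ?_, ?_⟩
    · change π (x * g) ∈ H.prod K
      rw [e1]
      exact ⟨ha, hb⟩
    · refine QuotientGroup.eq.2 ?_
      have : (x * g)⁻¹ * x = g⁻¹ := by group
      rw [this]
      exact inv_mem hg
    · intro n n' hn
      have e2 : π n' = (a, b) * π n * (a, b)⁻¹ := by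
        rw [hn, map_mul, map_mul, map_inv, e1]
      change θ (hs.eqv H K n').1 * ψ (hs.eqv H K n').2 = θ (hs.eqv H K n).1 * ψ (hs.eqv H K n).2
      rw [fa (hs.eqv H K n).1 (hs.eqv H K n').1 (by
        rw [hs.eqv_fst, hs.eqv_fst, e2]; rfl), fb (hs.eqv H K n).2 (hs.eqv H K n').2 (by
        rw [hs.eqv_snd, hs.eqv_snd, e2]; rfl)]

end prod

end Pool.Agent.N237.DI
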