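import Pool.Agent.N237.DI.Sq

/-!
# Fibre squares, and the numbers with inertial group `= U` and `≥ U` (helper237)
-/

set_option autoImplicit false
set_option linter.unusedSectionVars false

open scoped Classical

noncomputable section

namespace Pool.Agent.N237.DI

open Pool.Agent.Y63.NV
open Pool.Agent.Y63.KR
open Pool.Agent.R674.Tw (Fixes NG NEbar mem_NEbar IndB invSum GCh invSum_eq_zero)
open Pool.Agent.N20.DI (HasDef kdGe kdU radSum rad_kdGe rad_kdU parts DadeInv InvC dadeInv_iff)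
open Pool.Agent.N521.DI (kdGe_eq kdGe_conj kdU_conj)

section fib

variable {E : Type} [Group E] (G : Subgroup E) [hn : G.Normal]

/-- the fibre square of `E → E/G` -/
def fib : Subgroup (E × E) where
  carrier := {x | (x.1 : E ⧸ G) = x.2}
  one_mem' := rfl
  mul_mem' := by
    intro a b ha hb
    change ((a.1 * b.1 : E) : E ⧸ G) = ((a.2 * b.2 : E) : E ⧸ G)
    have ha' : (a.1 : E ⧸ G) = a.2 := ha
    have hb' : (b.1 : E ⧸ G) = b.2 := hb
    rw [QuotientGroup.mk_mul, QuotientGroup.mk_mul, ha', hb']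
  inv_mem' := by
    intro a ha
    change ((a.1⁻¹ : E) : E ⧸ G) = ((a.2⁻¹ : E) : E ⧸ G)
    have ha' : (a.1 : E ⧸ G) = a.2 := ha
    rw [QuotientGroup.mk_inv, QuotientGroup.mk_inv, ha']

theorem prod_le_fib : G.prod G ≤ fib G := by
  intro x hx
  change (x.1 : E ⧸ G) = x.2
  rw [(QuotientGroup.eq_one_iff x.1).2 hx.1, (QuotientGroup.eq_one_iff x.2).2 hx.2]

/-- `G × G` in the fibre square -/
def fg : Subgroup (fib G) := (G.prod G).subgroupOf (fib G)

instance fg_normal : (fg G).Normal := by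
  unfold fg
  infer_instance

theorem fib_iso : Iso2 (fib G).subtype (fg G) G G := by
  refine ⟨?_, fun x _ h => Subtype.ext h⟩
  unfold fg
  rw [Subgroup.subgroupOf_map_subtype, inf_eq_left]
  exact prod_le_fib G

/-- the map of the quotients -/
def fq : (fib G) ⧸ (fg G) →* E ⧸ G :=
  QuotientGroup.map (fg G) G ((MonoidHom.fst E E).comp (fib G).subtype) fun _ hx => hx.1

theorem fq_mk (x : fib G) : fq G (x : fib G ⧸ fg G) = ((x : E × E).1 : E ⧸ G) := rfl

theorem fq_bij : Function.Bijective (fq G) := by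
  constructor
  · rw [injective_iff_map_eq_one]
    intro y hy
    obtain ⟨x, rfl⟩ := QuotientGroup.mk_surjective y
    rw [fq_mk] at hy
    have h1 : (x : E × E).1 ∈ G := (QuotientGroup.eq_one_iff _).1 hy
    have h2 : (((x : E × E).1 : E) : E ⧸ G) = ((x : E × E).2 : E) := x.2
    rw [hy] at h2
    have h3 : (x : E × E).2 ∈ G := (QuotientGroup.eq_one_iff _).1 h2.symm
    exact (QuotientGroup.eq_one_iff x).2 ⟨h1, h3⟩
  · intro y
    obtain ⟨e, rfl⟩ := QuotientGroup.mk_surjective y
    exact ⟨((⟨(e, e), rfl⟩ : fib G) : fib G ⧸ fg G), rfl⟩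

/-- the isomorphism of the quotients -/
def fe : (fib G) ⧸ (fg G) ≃* E ⧸ G := MulEquiv.ofBijective (fq G) (fq_bij G)

theorem fib_proj (U : Subgroup (E ⧸ G)) :
    Proj (fib G).subtype (fg G) G G (U.comap (fq G)) U U := by
  constructor
  · intro y
    constructor
    · intro hy
      obtain ⟨e, rfl⟩ := QuotientGroup.mk_surjective y
      exact ⟨⟨(e, e), rfl⟩, hy, rfl⟩
    · rintro ⟨x, hx, rfl⟩
      exact hx
  · intro y
    constructor
    · intro hy
      obtain ⟨e, rfl⟩ := QuotientGroup.mk_surjective y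
      exact ⟨⟨(e, e), rfl⟩, hy, rfl⟩
    · rintro ⟨x, hx, rfl⟩
      have h1 : ((x : E × E).1 : E ⧸ G) ∈ U := hx
      have h2 : ((x : E × E).1 : E ⧸ G) = (x : E × E).2 := x.2
      rw [h2] at h1
      exact h1

end fib

section ge

variable {F : Type} [Field F] (red : integralClosure ℤ ℂ →+* F) {E : Type} [Group E] [Finite E]

theorem ge_of_eq {p : ℕ} (G : Subgroup E) [G.Normal] (B : (G → F) → F) (d : ℕ)
    (U : Subgroup (E ⧸ G)) (hU : ∀ W : Subgroup (E ⧸ G), U ≤ W →
      invSum p G (fun σ => (kdU p red G B d W σ : ℤ)) = 0) :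
    invSum p G (fun σ => (kdGe p red G B d U σ : ℤ)) = 0 := by
  have : Fintype (GCh p G) := Fintype.ofFinite _
  have : Fintype (Subgroup (E ⧸ G)) := Fintype.ofFinite _
  rw [invSum_eq_zero G _ (fun g hg σ => by rw [kdGe_conj p red G B d U σ hg])]
  have h2 : ∀ W : Subgroup (E ⧸ G), U ≤ W → ∑ σ : GCh p G, (-1) ^ σ.1.ncard *
      ((Nat.card (NG G σ.1) : ℤ) * (kdU p red G B d W σ.1 : ℤ)) = 0 := by
    intro W hW
    have h3 := hU W hW
    rwa [invSum_eq_zero G _ (fun g hg σ => by rw [kdU_conj p red G B d W σ hg])] at h3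
  have h5 : ∀ σ : GCh p G, (-1) ^ σ.1.ncard *
      ((Nat.card (NG G σ.1) : ℤ) * (kdGe p red G B d U σ.1 : ℤ)) =
      ∑ W : Subgroup (E ⧸ G), if U ≤ W then (-1) ^ σ.1.ncard *
        ((Nat.card (NG G σ.1) : ℤ) * (kdU p red G B d W σ.1 : ℤ)) else 0 := by
    intro σ
    rw [kdGe_eq, Nat.cast_sum, Finset.mul_sum, Finset.mul_sum]
    refine Finset.sum_congr rfl fun W _ => ?_
    by_cases h : U ≤ W
    · rw [if_pos h, if_pos h]
    · rw [if_neg h, if_neg h, Nat.cast_zero, mul_zero, mul_zero]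
  rw [Finset.sum_congr rfl fun σ _ => h5 σ, Finset.sum_comm]
  refine Finset.sum_eq_zero fun W _ => ?_
  by_cases h : U ≤ W
  · simp only [if_pos h]
    exact h2 W h
  · simp only [if_neg h, Finset.sum_const_zero]

/-- **the invariant conjecture with `≥ U` in place of `= U`** -/
theorem dadeInv_ge {p : ℕ} [Fact p.Prime] (G : Subgroup E) [G.Normal] :
    DadeInv p red G ↔ ((∀ P : Subgroup G, P.Normal → IsPGroup p P → P = ⊥) →
      ∀ B : (G → F) → F, IsBlock B → numDzBlock p red B = 0 → ∀ (d : ℕ) (U : Subgroup (E ⧸ G)),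
        radSum p G (fun σ => (kdGe p red G B d U σ : ℤ)) = 0) := by
  unfold DadeInv
  refine imp_congr_right fun _ => forall_congr' fun B => imp_congr_right fun _ =>
    imp_congr_right fun _ => forall_congr' fun d => ?_
  constructor
  · intro h U
    rw [rad_kdGe]
    refine ge_of_eq red G B d U fun W _ => ?_
    rw [← rad_kdU]
    exact h W
  · intro h U
    rw [rad_kdU]
    refine (parts.kdu p F red E G B d).2 U fun V _ => ?_
    rw [← rad_kdGe]
    exact h V

end ge

end Pool.Agent.N237.DI
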