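import Pool.Agent.N237.DI.Blk

/-!
# Dade's sums for direct products (helper237)
-/

set_option autoImplicit false
set_option linter.unusedSectionVars false

open scoped Classical

noncomputable section

namespace Pool.Agent.N237.DI

open Pool.Agent.Y63.NV
open Pool.Agent.Y63.KR
open Pool.Agent.R674.Tw (Fixes NG NEbar mem_NEbar IndB invSum)
open Pool.Agent.N20.DI (HasDef kdGe radSum rad_kdGe parts)
open Pool.Agent.Helper884.IC (IsIrrChar)
open Pool.Agent.Q99.AS (ten ten_irr Dft Dft_ten Dft_unique Dft_congr card_prod irr_one_ne')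
open Pool.Agent.Q90.WR (card_transport)

section prod

variable {F : Type} [Field F] (red : integralClosure ℤ ℂ →+* F)
variable {Γ E₁ E₂ : Type} [Group Γ] [Group E₁] [Group E₂]
  {π : Γ →* E₁ × E₂} {G : Subgroup Γ} {G₁ : Subgroup E₁} {G₂ : Subgroup E₂}
variable [Finite Γ] [Finite E₁] [Finite E₂]

/-- **The numbers of characters.** -/
theorem kS_prod (p : ℕ) [G.Normal] [G₁.Normal] [G₂.Normal] (hs : Iso2 π G G₁ G₂)
    {B : (G → F) → F} {B₁ : (G₁ → F) → F} {B₂ : (G₂ → F) → F}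
    (hB : IsBlock B) (hB₁ : IsBlock B₁) (hB₂ : IsBlock B₂) (hT : TenB hs B B₁ B₂)
    {U : Subgroup (Γ ⧸ G)} {U₁ : Subgroup (E₁ ⧸ G₁)} {U₂ : Subgroup (E₂ ⧸ G₂)}
    (hU : Proj π G G₁ G₂ U U₁ U₂) (d : ℕ) (H : Subgroup E₁) (K : Subgroup E₂) :
    kS p red G B d U ((H.prod K).comap π) =
      ∑ i ∈ Finset.HasAntidiagonal.antidiagonal d,
        kS p red G₁ B₁ i.1 U₁ H * kS p red G₂ B₂ i.2 U₂ K := by
  have _i1 : Fintype ↥(G₁ ⊓ H) := Fintype.ofFinite _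
  have _i2 : Fintype ↥(G₂ ⊓ K) := Fintype.ofFinite _
  unfold kS
  rw [card_transport (hs.eqv H K)]
  rw [card_prod (Finset.HasAntidiagonal.antidiagonal d) _
    (fun i θ => Dft p i.1 θ ∧ Inr G₁ U₁ H θ ∧ Blk red G₁ B₁ H θ)
    (fun i ψ => Dft p i.2 ψ ∧ Inr G₂ U₂ K ψ ∧ Blk red G₂ B₂ K ψ)]
  · push_cast
    rfl
  · intro θ ψ h1 h2
    have e1 : Dft p d (fun x => ten θ ψ (hs.eqv H K x)) ↔ Dft p d (ten θ ψ) :=
      Dft_congr (hs.eqv H K) (ten θ ψ)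
    rw [e1, Dft_ten h1 h2, inr_prod hs hU h1 h2, blk_prod red hs hB hB₁ hB₂ hT h1 h2]
    constructor
    · rintro ⟨⟨i, hi, a, b⟩, ⟨c, c'⟩, ⟨e, e'⟩⟩
      exact ⟨i, hi, ⟨a, c, e⟩, b, c', e'⟩
    · rintro ⟨i, hi, ⟨a, c, e⟩, b, c', e'⟩
      exact ⟨⟨i, hi, a, b⟩, ⟨c, c'⟩, ⟨e, e'⟩⟩
  · intro θ ψ i _ j _ h1 h2 h3 h4
    exact Prod.ext (Dft_unique h1.1 h3.1) (Dft_unique h2.1 h4.1)

theorem kS_conj {p : ℕ} [Fact p.Prime] {E : Type} [Group E] [Finite E] (G : Subgroup E) [G.Normal]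
    (B : (G → F) → F) (d : ℕ) (U : Subgroup (E ⧸ G)) {g : E} (hg : g ∈ G)
    (σ : Set (Subgroup E)) :
    kS p red G B d U (chainStabilizer (conjSub g '' σ)) =
      kS p red G B d U (chainStabilizer σ) := by
  rw [← kdGe_kS, ← kdGe_kS, ((parts.kdu p F red E G B d).1 U σ g hg).2]

/-- the sum over radical chains -/
theorem rad_kS {p : ℕ} [Fact p.Prime] {E : Type} [Group E] [Finite E] (G : Subgroup E) [G.Normal]
    (B : (G → F) → F) (d : ℕ) (U : Subgroup (E ⧸ G)) :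
    radSum p G (fun σ => (kdGe p red G B d U σ : ℤ)) =
      invSum p G (fun σ => kS p red G B d U (chainStabilizer σ)) := by
  refine (rad_kdGe red G B d U).trans ?_
  exact congrArg (invSum p G) (funext fun σ => kdGe_kS p red G B d U σ)

/-- **Dade's sums for direct products.** -/
theorem rad_prod {p : ℕ} [Fact p.Prime] [G.Normal] [G₁.Normal] [G₂.Normal]
    (hs : Iso2 π G G₁ G₂) {B : (G → F) → F} {B₁ : (G₁ → F) → F} {B₂ : (G₂ → F) → F}
    (hB : IsBlock B) (hB₁ : IsBlock B₁) (hB₂ : IsBlock B₂) (hT : TenB hs B B₁ B₂)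
    {U : Subgroup (Γ ⧸ G)} {U₁ : Subgroup (E₁ ⧸ G₁)} {U₂ : Subgroup (E₂ ⧸ G₂)}
    (hU : Proj π G G₁ G₂ U U₁ U₂) (d : ℕ) :
    radSum p G (fun σ => (kdGe p red G B d U σ : ℤ)) =
      ∑ i ∈ Finset.HasAntidiagonal.antidiagonal d,
        radSum p G₁ (fun σ => (kdGe p red G₁ B₁ i.1 U₁ σ : ℤ)) *
          radSum p G₂ (fun σ => (kdGe p red G₂ B₂ i.2 U₂ σ : ℤ)) := by
  have h := invSum_prod (p := p) hs (Finset.HasAntidiagonal.antidiagonal d) (kS p red G B d U)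
    (fun i : ℕ × ℕ => kS p red G₁ B₁ i.1 U₁) (fun i : ℕ × ℕ => kS p red G₂ B₂ i.2 U₂)
    (fun g hg σ => kS_conj red G B d U hg σ)
    (fun i g hg σ => kS_conj red G₁ B₁ i.1 U₁ hg σ)
    (fun i g hg σ => kS_conj red G₂ B₂ i.2 U₂ hg σ)
    (fun H K => kS_prod red p hs hB hB₁ hB₂ hT hU d H K)
  refine (rad_kS red G B d U).trans (h.trans (Finset.sum_congr rfl fun i _ => ?_))
  rw [rad_kS, rad_kS]

end prod

end Pool.Agent.N237.DI
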