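import Pool.Agent.N237.DI.Prd
import Pool.Agent.N85.TG.Exc0

/-!
# Squares (helper237)
-/

set_option autoImplicit false
set_option linter.unusedSectionVars false

open scoped Classical

noncomputable section

namespace Pool.Agent.N237.DI

open Pool.Agent.Y63.NV
open Pool.Agent.Y63.KR
open Pool.Agent.R674.Tw (Fixes NG NEbar mem_NEbar IndB invSum)
open Pool.Agent.N20.DI (HasDef kdGe kdU radSum rad_kdGe rad_kdU parts DadeInv)
open Pool.Agent.Helper884.IC (IsIrrChar)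
open Pool.Agent.Q99.AS (ten ten_irr Dft Dft_ten Dft_unique Dft_congr Dft_le card_prod irr_one_ne')
open Pool.Agent.Q90.WR (card_transport)

section prod

variable {F : Type} [Field F] (red : integralClosure ℤ ℂ →+* F)
variable {Γ E₁ E₂ : Type} [Group Γ] [Group E₁] [Group E₂]
  {π : Γ →* E₁ × E₂} {G : Subgroup Γ} {G₁ : Subgroup E₁} {G₂ : Subgroup E₂}
variable [Finite Γ] [Finite E₁] [Finite E₂]

include red in
/-- the block `B₁ ⊗ B₂` -/
theorem exists_ten (hs : Iso2 π G G₁ G₂) {B₁ : (G₁ → F) → F} {B₂ : (G₂ → F) → F}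
    (hB₁ : IsBlock B₁) (hB₂ : IsBlock B₂) : ∃ B : (G → F) → F, IsBlock B ∧ TenB hs B B₁ B₂ := by
  have _i1 : Fintype G₁ := Fintype.ofFinite _
  have _i2 : Fintype G₂ := Fintype.ofFinite _
  obtain ⟨θ, hθ, eθ⟩ := Pool.Agent.N85.TG.Exc.core red hB₁
  obtain ⟨ψ, hψ, eψ⟩ := Pool.Agent.N85.TG.Exc.core red hB₂
  have hθ' : IsIrrChar θ := hθ
  have hψ' : IsIrrChar ψ := hψ
  have hirr : IsIrrChar (fun x => ten θ ψ (hs.e x)) :=
    Pool.Agent.Q90.WR.irr_comp hs.e (ten_irr hθ' hψ')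
  refine ⟨centralValue red (fun x => ten θ ψ (hs.e x)),
    Pool.Agent.Y930.NV.cvh F red _ _ hirr, fun f₁ f₂ c1 c2 => ?_⟩
  have h := Pool.Agent.Y286.NV.centralValue_comp red hs.e (ten θ ψ)
    (Pool.Agent.Y286.NV.irr_class (ten_irr hθ' hψ')) (fun x => f₁ x.1 * f₂ x.2) (cl_ten c1 c2)
  rw [Pool.Agent.N20.KB.cv_ten red hθ' hψ' c1 c2, eθ _ c1, eψ _ c2] at h
  exact h

theorem wt_iff {p : ℕ} {J : Type} [Group J] {χ : J → ℂ} :
    IsWt p (⊥ : Subgroup J) χ ↔ IsIrrChar χ ∧ Dft p 0 χ := by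
  constructor
  · intro h
    obtain ⟨n, h1, h2⟩ := h.defectZero
    rw [Subgroup.card_bot, Nat.factorization_one, Finsupp.coe_zero, Pi.zero_apply] at h2
    exact ⟨h.irr, n, h1, h2⟩
  · rintro ⟨h, n, h1, h2⟩
    refine ⟨h, fun q hq x => ?_, n, h1, ?_⟩
    · rw [Subgroup.mem_bot.1 hq, one_mul]
    · rw [Subgroup.card_bot, Nat.factorization_one, Finsupp.coe_zero, Pi.zero_apply]
      exact h2

/-- characters of defect zero -/
theorem numDz_kS (p : ℕ) {E : Type} [Group E] [Finite E] (G : Subgroup E) [G.Normal]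
    (B : (G → F) → F) : (numDzBlock p red B : ℤ) = kS p red G B 0 ⊥ ⊤ := by
  have _i1 : Fintype ↥(G ⊓ ⊤) := Fintype.ofFinite _
  have _i2 : Fintype ↥G := Fintype.ofFinite _
  let e : ↥(G ⊓ ⊤) ≃* ↥G := MulEquiv.subgroupCongr (inf_top_eq G)
  unfold kS numDzBlock
  rw [card_transport e]
  congr 1
  refine Nat.card_congr (Equiv.subtypeEquivRight fun χ => ?_)
  rw [wt_iff, and_assoc]
  refine and_congr_right fun hχ => ?_
  have h1 : Dft p 0 (fun x => χ (e x)) ↔ Dft p 0 χ := Dft_congr e χ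
  have h2 : Inr G ⊥ ⊤ (fun x => χ (e x)) := by
    intro u hu
    refine ⟨1, Subgroup.mem_top _, ?_, fun n n' h => ?_⟩
    · rw [Subgroup.mem_bot.1 hu]
      rfl
    · congr 2
      apply Subtype.ext
      rw [h]
      group
  rw [h1]
  refine and_congr_right fun _ => ?_
  have h3 : Blk red G B ⊤ (fun x => χ (e x)) ↔
      ∀ f : G → F, IsClassFun f → centralValue red χ f = B f := by
    refine forall_congr' fun f => imp_congr_right fun hf => ?_
    have h4 := Pool.Agent.Y286.NV.centralValue_comp red e χ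
      (Pool.Agent.Y286.NV.irr_class hχ) f hf
    rw [← h4]
    exact Iff.rfl
  rw [h3]
  exact ⟨fun h => ⟨h2, h⟩, fun h => h.2⟩

theorem numDz_prod (p : ℕ) [hn : G.Normal] [hn₁ : G₁.Normal] [hn₂ : G₂.Normal]
    (hs : Iso2 π G G₁ G₂)
    {B : (G → F) → F} {B₁ : (G₁ → F) → F} {B₂ : (G₂ → F) → F}
    (hB : IsBlock B) (hB₁ : IsBlock B₁) (hB₂ : IsBlock B₂) (hT : TenB hs B B₁ B₂)
    (h0 : numDzBlock p red B₁ = 0) : numDzBlock p red B = 0 := by
  have hU : Proj π G G₁ G₂ ⊥ ⊥ ⊥ := by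
    refine ⟨fun y => ⟨fun h => ⟨1, Subgroup.mem_bot.2 rfl, ?_⟩, ?_⟩,
      fun y => ⟨fun h => ⟨1, Subgroup.mem_bot.2 rfl, ?_⟩, ?_⟩⟩
    · rw [Subgroup.mem_bot.1 h, map_one]
      rfl
    · rintro ⟨x, hx, rfl⟩
      rw [Subgroup.mem_bot]
      have h1 : x ∈ G := (QuotientGroup.eq_one_iff x).1 (Subgroup.mem_bot.1 hx)
      exact (QuotientGroup.eq_one_iff _).2 (hs.mem h1).1
    · rw [Subgroup.mem_bot.1 h, map_one]
      rfl
    · rintro ⟨x, hx, rfl⟩
      rw [Subgroup.mem_bot]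
      have h1 : x ∈ G := (QuotientGroup.eq_one_iff x).1 (Subgroup.mem_bot.1 hx)
      exact (QuotientGroup.eq_one_iff _).2 (hs.mem h1).2
  have h := kS_prod red p hs hB hB₁ hB₂ hT hU 0 ⊤ ⊤
  rw [Subgroup.top_prod_top, Subgroup.comap_top, ← numDz_kS] at h
  have h1 : (Finset.HasAntidiagonal.antidiagonal 0 : Finset (ℕ × ℕ)) = {(0, 0)} := rfl
  rw [h1, Finset.sum_singleton, ← numDz_kS, h0, Nat.cast_zero, zero_mul] at h
  exact_mod_cast h

/-- normal `p`-subgroups -/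
theorem op_prod (p : ℕ) (hs : Iso2 π G G₁ G₂)
    (h1 : ∀ P : Subgroup G₁, P.Normal → IsPGroup p P → P = ⊥)
    (h2 : ∀ P : Subgroup G₂, P.Normal → IsPGroup p P → P = ⊥) :
    ∀ P : Subgroup G, P.Normal → IsPGroup p P → P = ⊥ := by
  intro P hP hp
  have s1 : Function.Surjective ((MonoidHom.fst G₁ G₂).comp hs.e.toMonoidHom) := by
    intro a
    obtain ⟨x, hx⟩ := hs.e.surjective (a, 1)
    exact ⟨x, by change (hs.e x).1 = a; rw [hx]⟩
  have s2 : Function.Surjective ((MonoidHom.snd G₁ G₂).comp hs.e.toMonoidHom) := by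
    intro a
    obtain ⟨x, hx⟩ := hs.e.surjective (1, a)
    exact ⟨x, by change (hs.e x).2 = a; rw [hx]⟩
  have e1 := h1 _ (hP.map _ s1) (hp.map _)
  have e2 := h2 _ (hP.map _ s2) (hp.map _)
  rw [Subgroup.eq_bot_iff_forall]
  intro x hx
  have f1 : (hs.e x).1 = 1 := by
    have : (hs.e x).1 ∈ P.map ((MonoidHom.fst G₁ G₂).comp hs.e.toMonoidHom) := ⟨x, hx, rfl⟩
    rw [e1] at this
    exact Subgroup.mem_bot.1 this
  have f2 : (hs.e x).2 = 1 := by
    have : (hs.e x).2 ∈ P.map ((MonoidHom.snd G₁ G₂).comp hs.e.toMonoidHom) := ⟨x, hx, rfl⟩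
    rw [e2] at this
    exact Subgroup.mem_bot.1 this
  exact (map_eq_one_iff hs.e hs.e.injective).1 (Prod.ext f1 f2)

end prod

section supp

variable {F : Type} [Field F] (red : integralClosure ℤ ℂ →+* F)

theorem rad_supp {p : ℕ} (hp : p.Prime) {E : Type} [Group E] [Finite E] (G : Subgroup E)
    [G.Normal] (B : (G → F) → F) (U : Subgroup (E ⧸ G)) {d : ℕ}
    (hd : Nat.log 2 (Nat.card G) < d) :
    radSum p G (fun σ => (kdGe p red G B d U σ : ℤ)) = 0 := by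
  have h0 : ∀ σ : Set (Subgroup E), (kdGe p red G B d U σ : ℤ) = 0 := by
    intro σ
    rw [kdGe_kS]
    unfold kS
    have : IsEmpty {χ : ↥(G ⊓ chainStabilizer σ) → ℂ // IsIrrChar χ ∧
        (Dft p d χ ∧ Inr G U (chainStabilizer σ) χ ∧ Blk red G B (chainStabilizer σ) χ)} := by
      refine ⟨?_⟩
      rintro ⟨ϑ, -, h, -⟩
      have h1 := Dft_le h
      have h2 : 2 ^ (Nat.card ↥(G ⊓ chainStabilizer σ)).factorization p ≤ Nat.card G := by
        calc 2 ^ (Nat.card ↥(G ⊓ chainStabilizer σ)).factorization p ≤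
              p ^ (Nat.card ↥(G ⊓ chainStabilizer σ)).factorization p :=
              Nat.pow_le_pow_left hp.two_le _
          _ ≤ Nat.card ↥(G ⊓ chainStabilizer σ) := Nat.le_of_dvd Nat.card_pos (Nat.ordProj_dvd _ _)
          _ ≤ Nat.card G := Nat.le_of_dvd Nat.card_pos (Subgroup.card_dvd_of_le inf_le_left)
      have h3 := Nat.le_log_of_pow_le (b := 2) (by norm_num) h2
      omega
    rw [Nat.card_of_isEmpty]
    rfl
  unfold radSum
  simp only [h0, mul_zero, finsum_zero]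

end supp

end Pool.Agent.N237.DI
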